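import Pool.Agent.Helper23.MC.Goals3

/-!
# Packet MC-VJ: at a prime `n + j` the label at `j` disappears
-/

set_option autoImplicit false

open Finset Filter Topology

open scoped Classical

namespace Pool.Agent.Helper82.MC

open Pool.Agent.Helper23.MC
open Pool.Agent.Helper88.PP (pr Rg om Sf SS uu vv ee LA VV QQ cost)

theorem vv_one {y z r m : ℕ} (hm : m.Prime) (hz : z < m) (hs : Sf z r) (hr : r < m) :
    vv y z r m = 1 := by
  have hr0 : r ≠ 0 := hs.1.ne_zero
  have h1 : Rg y z m := by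
    intro p hp hd
    have h2 := Finset.mem_filter.1 hp
    have h3 := (Finset.mem_Ioc.1 h2.1).2
    have h4 := (Nat.prime_dvd_prime_iff_eq h2.2 hm).1 hd
    omega
  rw [vv, if_neg hr0, if_pos h1, uu]
  apply Finset.prod_eq_one
  intro p hp
  have h2 := Nat.prime_of_mem_primeFactors hp
  have h3 : p ≤ r := Nat.le_of_mem_primeFactors hp
  rw [if_neg, sub_zero]
  intro hd
  have h4 := (Nat.prime_dvd_prime_iff_eq h2 hm).1 hd
  omega

theorem prod_split {H : Finset ℕ} {j : ℕ} (hj : j ∈ H) (f : ℕ → ℕ → ℝ) (s : H → ℕ)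
    (h1 : f (s ⟨j, hj⟩) j = 1) :
    ∏ i : H, f (s i) (i : ℕ) = ∏ i : ↥(H.erase j), f (rs H j s i) (i : ℕ) := by
  rw [← Finset.mul_prod_erase (univ : Finset H) (fun i => f (s i) (i : ℕ)) (mem_univ ⟨j, hj⟩),
    h1, one_mul]
  symm
  refine Finset.prod_bij (fun i _ => (⟨i, mem_of_mem_erase i.2⟩ : H)) ?_ ?_ ?_ ?_
  · intro i _
    rw [Finset.mem_erase]
    refine ⟨fun h => ?_, mem_univ _⟩
    have h2 : (i : ℕ) = j := congrArg (fun x : H => (x : ℕ)) h
    exact (Finset.mem_erase.1 i.2).1 h2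
  · intro i _ i' _ h
    have h2 : (i : ℕ) = (i' : ℕ) := congrArg (fun x : H => (x : ℕ)) h
    exact Subtype.ext h2
  · intro i hi
    have h2 := (Finset.mem_erase.1 hi).1
    refine ⟨⟨i, Finset.mem_erase.2 ⟨fun h => h2 (Subtype.ext h), i.2⟩⟩, mem_univ _, rfl⟩
  · intro i _
    rfl

theorem vj : Pool.Agent.Helper23.MC.StmtVJ := by
  intro y z H j n T κ hj hp hz hT
  have h1 : ∀ s ∈ T, ∏ i : H, vv y z (s i) (n + (i : ℕ)) =
      ∏ i : ↥(H.erase j), vv y z (rs H j s i) (n + (i : ℕ)) := by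
    intro s hs
    exact prod_split hj (fun a b => vv y z a (n + b)) s
      (vv_one hp hz (hT s hs ⟨j, hj⟩).1 (hT s hs ⟨j, hj⟩).2)
  unfold VH
  rw [Finset.sum_congr rfl fun s hs => by rw [h1 s hs]]
  rw [← Finset.sum_fiberwise_of_maps_to (s := T) (t := Tj H j T) (g := rs H j)
    (fun s hs => Finset.mem_image_of_mem _ hs)]
  refine Finset.sum_congr rfl fun s' _ => ?_
  unfold kj
  rw [Finset.sum_mul]
  refine Finset.sum_congr rfl fun s hs => ?_
  rw [(Finset.mem_filter.1 hs).2]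

end Pool.Agent.Helper82.MC
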